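import Pool.Agent.Helper7.KT.St

/-!
# Module KFG of project KT: graphs without `G` have no `K_{s,t}`
-/

set_option autoImplicit false

namespace Pool.Agent.Helper88.KT

open Finset SimpleGraph Filter Topology
open EX Pool.Agent.Helper7.KT

open scoped Classical

theorem hKFG : StKFG := by
  intro U _ G s t hB V Γ hF S A' hA' hs
  by_contra hc
  rw [not_lt] at hc
  obtain ⟨A, hG, hAs, hBt⟩ := hB
  obtain ⟨f⟩ : Nonempty ({u // u ∈ A} ↪ {v // v ∈ A'}) := by
    apply Function.Embedding.nonempty_of_card_le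
    simp only [Fintype.card_coe]
    omega
  obtain ⟨g⟩ : Nonempty ({u // u ∈ (univ.filter fun u => u ∉ A)} ↪
      {v // v ∈ (S.filter fun v => ∀ x ∈ A', Γ.Adj v x)}) := by
    apply Function.Embedding.nonempty_of_card_le
    simp only [Fintype.card_coe]
    omega
  have hm : ∀ u, u ∉ A → u ∈ (univ.filter fun u => u ∉ A) := fun u hu => by
    simp only [mem_filter, mem_univ, true_and]
    exact hu
  have hgf : ∀ u (hu : u ∉ A) v (hv : v ∈ A),
      Γ.Adj (g ⟨u, hm u hu⟩ : V) (f ⟨v, hv⟩ : V) := by
    intro u hu v hv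
    have h1 := (g ⟨u, hm u hu⟩).2
    rw [mem_filter] at h1
    exact h1.2 _ (f ⟨v, hv⟩).2
  let φ : U → V := fun u => if h : u ∈ A then (f ⟨u, h⟩ : V) else (g ⟨u, hm u h⟩ : V)
  have hφA : ∀ u (h : u ∈ A), φ u = (f ⟨u, h⟩ : V) := fun u h => by simp only [φ, dif_pos h]
  have hφB : ∀ u (h : u ∉ A), φ u = (g ⟨u, hm u h⟩ : V) := fun u h => by simp only [φ, dif_neg h]
  apply hF
  refine ⟨⟨⟨φ, ?_⟩, ?_⟩⟩
  · intro u v huv
    have h1 := hG u v huv
    by_cases hu : u ∈ A
    · have hv : v ∉ A := h1.1 hu
      rw [hφA u hu, hφB v hv]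
      exact (hgf v hv u hu).symm
    · have hv : v ∈ A := by
        by_contra hv
        exact hu (h1.2 hv)
      rw [hφB u hu, hφA v hv]
      exact hgf u hu v hv
  · intro u v huv
    change φ u = φ v at huv
    by_cases hu : u ∈ A
    · by_cases hv : v ∈ A
      · rw [hφA u hu, hφA v hv] at huv
        have h2 := f.injective (Subtype.ext huv)
        exact congrArg Subtype.val h2
      · exfalso
        rw [hφA u hu, hφB v hv] at huv
        have h2 := hgf v hv u hu
        rw [huv] at h2
        exact h2.ne rfl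
    · by_cases hv : v ∈ A
      · exfalso
        rw [hφB u hu, hφA v hv] at huv
        have h2 := hgf u hu v hv
        rw [huv] at h2
        exact h2.ne rfl
      · rw [hφB u hu, hφB v hv] at huv
        have h2 := g.injective (Subtype.ext huv)
        exact congrArg Subtype.val h2

end Pool.Agent.Helper88.KT
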